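import Pool.Agent.Lib.TGS27.Skel
import Pool.Agent.Lib.TGA_h75.End
import Pool.Agent.Lib.TGL.Final
import Pool.Agent.Lib.TGL.Zero

/-!
# TANK G: the skeleton, second version

The block END and the exit of track L are plugged in: the final theorem follows from `ProjStmt`
(blocks B + C) and the step of the induction `GLO`.
-/

set_option autoImplicit false

open AlgebraicGeometry CategoryTheory

namespace Pool.Agent.TGS27

open Pool.Agent.TG Pool.Agent.TGL

/-- The two remaining outputs: `d m` bounds the local degrees in dimension `m + 1`. -/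
structure Rows2 (d : ℕ → ℕ) : Prop where
  /-- Blocks B + C. -/
  proj : ∀ (m p : ℕ), p.Prime → d m < p → ∀ (k : Type) [Field k], Big p k → ProjStmt k m (d m)
  /-- The step of the induction of track L. -/
  step : ∀ (p : ℕ), p.Prime → ∀ (k : Type) [Field k], Big p k → ∀ m d : ℕ, d < p → GLO k m →
    ProjStmt k m d → GLO k (m + 1)

theorem glim_of_rows2 {d : ℕ → ℕ} (h : Rows2 d) (n p : ℕ) (hp : p.Prime)
    (hlt : ∀ m < n, d m < p) (k : Type) [Field k] (hk : Big p k) : GLim k n := by
  have := hk.closed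
  exact glim_of' (p := p) (glo_zero k) (fun m e he => h.step p hp k hk m e he) d n
    (fun m hm => h.proj m p hp (hlt m hm) k hk) hlt

theorem wl_of_rows2 {d : ℕ → ℕ} (h : Rows2 d) (n p : ℕ) (hp : p.Prime)
    (hlt : ∀ m < n, d m < p) (k : Type) [Field k] [IsAlgClosed k] [CharP k p] : WL k n := by
  obtain ⟨k', _, _, hk'⟩ := exists_big p k
  have := hk'.closed
  exact TGD.wl_descent k k' n (wl_of_glim (glim_of_rows2 h n p hp hlt k' hk'))

/-- THE FINAL THEOREM from the two rows, with the explicit bound `d m < p` for `m < n`. -/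
theorem resolution_of_rows2 {d : ℕ → ℕ} (h : Rows2 d) (n p : ℕ) (hp : p.Prime)
    (hlt : ∀ m < n, d m < p) (k : Type) [Field k] [IsAlgClosed k] [CharP k p] (X : Scheme.{0})
    (f : X ⟶ Spec (CommRingCat.of k)) (_ : IsIntegral X) (_ : LocallyOfFiniteType f)
    (_ : QuasiCompact f)
    (hn : @Algebra.trdeg k X.functionField _ _ (Pool.Agent.LU2G.consts f).toAlgebra ≤ n) :
    ∃ (Y : Scheme.{0}) (π : Y ⟶ X), IsIntegral Y ∧ IsProper π ∧
      AlgebraicGeometry.Smooth (π ≫ f) ∧ ∃ U : X.Opens, Dense (U : Set X) ∧ IsIso (π ∣_ U) :=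
  TGS.resolution_of_WL_le (fun m hm => wl_of_rows2 h m p hp
    (fun l hl => hlt l (hl.trans_le hm)) k) X f hn

end Pool.Agent.TGS27
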