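import Pool.Agent.Lib.TGA_h75.LF
import Pool.Agent.Lib.TG_h81.Proj
import Pool.Agent.Lib.TG_h3.Final
import Pool.Agent.Lib.TG_h67.Asm

/-!
# TANK G: the skeleton

The induction and the final theorem, from the outputs of the blocks: `ProjStmt` (blocks B + C),
the step `GLim k m → ProjStmt k m d → GLim k (m + 1)` (block E/F at limit level), and the end
`GLim k n → WLz k n`.
-/

set_option autoImplicit false

open AlgebraicGeometry CategoryTheory

namespace Pool.Agent.TGS27

open Pool.Agent.TG

/-- The fields over which the blocks B + C work: algebraically closed, uncountable (hence of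
infinite transcendence degree over the prime field). -/
structure Big (p : ℕ) (k : Type) [Field k] : Prop where
  closed : IsAlgClosed k
  char : CharP k p
  unc : Uncountable k

/-- Every algebraically closed field has a big extension. -/
theorem exists_big (p : ℕ) (k : Type) [Field k] [IsAlgClosed k] [CharP k p] :
    ∃ (k' : Type) (_ : Field k') (_ : Algebra k k'), Big p k' := by
  let R := MvPolynomial ℝ k
  let k' := AlgebraicClosure (FractionRing R)
  have hinj : Function.Injective (algebraMap R k') := by
    rw [IsScalarTower.algebraMap_eq R (FractionRing R) k', RingHom.coe_comp]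
    exact (algebraMap (FractionRing R) k').injective.comp (IsFractionRing.injective R (FractionRing R))
  refine ⟨k', inferInstance, inferInstance, ⟨inferInstance, ?_, ?_⟩⟩
  · exact charP_of_injective_algebraMap (algebraMap k k').injective p
  · have h : Function.Injective fun r : ℝ => algebraMap R k' (MvPolynomial.X r) :=
      hinj.comp (MvPolynomial.X_injective)
    exact h.uncountable

/-- The three outputs. -/
structure Rows (d p₀ : ℕ → ℕ) : Prop where
  /-- Blocks B + C. -/
  proj : ∀ (m p : ℕ), p.Prime → p₀ m < p → ∀ (k : Type) [Field k], Big p k → ProjStmt k m (d m)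
  /-- The start. -/
  zero : ∀ (p : ℕ), p.Prime → ∀ (k : Type) [Field k], Big p k → GLim k 0
  /-- Blocks E + F at one valuation. -/
  step : ∀ (m p : ℕ), p.Prime → p₀ m < p → ∀ (k : Type) [Field k], Big p k → GLim k m →
    ProjStmt k m (d m) → GLim k (m + 1)
  /-- The end. -/
  fin : ∀ (n p : ℕ), p.Prime → ∀ (k : Type) [Field k], Big p k → GLim k n → WLz k n

theorem glim_of_rows {d p₀ : ℕ → ℕ} (h : Rows d p₀) (n p : ℕ) (hp : p.Prime)
    (hlt : (Finset.range n).sup p₀ < p) (k : Type) [Field k] (hk : Big p k) : GLim k n := by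
  induction n with
  | zero => exact h.zero p hp k hk
  | succ m ih =>
    rw [Finset.range_add_one, Finset.sup_insert, sup_lt_iff] at hlt
    exact h.step m p hp hlt.1 k hk (ih hlt.2) (h.proj m p hp hlt.1 k hk)

theorem wl_of_rows {d p₀ : ℕ → ℕ} (h : Rows d p₀) (n p : ℕ) (hp : p.Prime)
    (hlt : (Finset.range n).sup p₀ < p) (k : Type) [Field k] [IsAlgClosed k] [CharP k p] :
    WL k n := by
  obtain ⟨k', _, _, hk'⟩ := exists_big p k
  have := hk'.closed
  exact TGD.wl_descent k k' n (WL_of_WLz (h.fin n p hp k' hk' (glim_of_rows h n p hp hlt k' hk')))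

/-- THE FINAL THEOREM from the rows (the exact form of the hand-in is fixed by helper26/67). -/
theorem resolution_of_rows {d p₀ : ℕ → ℕ} (h : Rows d p₀) :
    ∀ n : ℕ, ∃ p₁ : ℕ, ∀ p : ℕ, p.Prime → p₁ < p → ∀ (k : Type) [Field k] [IsAlgClosed k]
      [CharP k p] (X : Scheme.{0}) (f : X ⟶ Spec (CommRingCat.of k)) (_ : IsIntegral X),
      LocallyOfFiniteType f → QuasiCompact f → IsSeparated f →
      @Algebra.trdeg k X.functionField _ _ (Pool.Agent.LU2G.consts f).toAlgebra ≤ n →
      ∃ (Y : Scheme.{0}) (π : Y ⟶ X), IsIntegral Y ∧ IsProper π ∧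
        AlgebraicGeometry.Smooth (π ≫ f) ∧
        ∃ U : X.Opens, Dense (U : Set X) ∧ IsIso (π ∣_ U) :=
  TGS.resolution_of_WL_all fun n => ⟨(Finset.range n).sup p₀, fun p hp hlt k _ _ _ =>
    wl_of_rows h n p hp hlt k⟩

end Pool.Agent.TGS27
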